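import Pool.Agent.H243R3.PCP.Gap
import Pool.Agent.H688R2.RInd.Defs

/-!
# Independent sets and the product of conflict graphs of formulas

The conflict graph of a formula has a vertex for every literal occurrence; its edges join the
occurrences in the same clause and the contradictory occurrences. In its `k`-th power the vertices
are the `k`-tuples, adjacent if they are adjacent in some coordinate.
-/

set_option autoImplicit false

namespace Pool.Agent.H243R3.MIS

open Pool.Agent.H243R3.TP Pool.Agent.H688R2.RInd

/-- Vertices: number of a clause, a literal. -/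
abbrev Vx := ℕ × Lit

/-- The vertices of the conflict graph. -/
def vs (φ : List Clause) : List Vx := φ.zipIdx.flatMap fun p => (lits p.1).map fun l => (p.2, l)

/-- Adjacency in the conflict graph. -/
def cf (a b : Vx) : Bool :=
  (!decide (a = b)) && (decide (a.1 = b.1) || (decide (a.2.1 = b.2.1) && !decide (a.2.2 = b.2.2)))

/-- The tuples of length `k`. -/
def tup (V : List Vx) : ℕ → List (List Vx)
  | 0 => [[]]
  | k + 1 => (tup V k).flatMap fun t => V.map fun v => v :: t

/-- Some coordinates are adjacent. -/
def hit (s t : List Vx) : Bool := (s.zip t).any fun p => cf p.1 p.2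

/-- Adjacency in the power (equal tuples count as adjacent). -/
def adj (s t : List Vx) : Bool := decide (s = t) || (hit s t || hit t s)

/-- The adjacency lists of the power. -/
def gA (φ : List Clause) (k : ℕ) : List (List ℕ) :=
  (tup (vs φ) k).map fun s => (List.range (tup (vs φ) k).length).filter fun j =>
    adj s ((tup (vs φ) k).getD j [])

theorem mem_vs {φ : List Clause} {v : Vx} : v ∈ vs φ ↔ ∃ c, φ[v.1]? = some c ∧ v.2 ∈ lits c := by
  unfold vs
  rw [List.mem_flatMap]
  constructor
  · rintro ⟨⟨c, i⟩, hp, hv⟩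
    rw [List.mem_zipIdx_iff_getElem?] at hp
    rw [List.mem_map] at hv
    obtain ⟨l, hl, rfl⟩ := hv
    exact ⟨c, hp, hl⟩
  · rintro ⟨c, h1, h2⟩
    refine ⟨(c, v.1), List.mem_zipIdx_iff_getElem?.2 h1, List.mem_map.2 ⟨v.2, h2, rfl⟩⟩

theorem length_tup (V : List Vx) (k : ℕ) : (tup V k).length = V.length ^ k := by
  induction k with
  | zero => simp [tup]
  | succ k ih => simp [tup, List.length_flatMap, ih, pow_succ]

theorem mem_tup {V : List Vx} {k : ℕ} {t : List Vx} :
    t ∈ tup V k ↔ t.length = k ∧ ∀ v ∈ t, v ∈ V := by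
  induction k generalizing t with
  | zero => simp +contextual [tup]
  | succ k ih =>
    simp only [tup, List.mem_flatMap, List.mem_map]
    constructor
    · rintro ⟨a, ha, v, hv, rfl⟩
      obtain ⟨h1, h2⟩ := ih.1 ha
      refine ⟨by simp [h1], fun w hw => ?_⟩
      rcases List.mem_cons.1 hw with rfl | hw
      · exact hv
      · exact h2 w hw
    · rintro ⟨h1, h2⟩
      cases t with
      | nil => simp at h1
      | cons v t =>
        refine ⟨t, ih.2 ⟨by simpa using h1, fun w hw => h2 w (List.mem_cons_of_mem _ hw)⟩, v,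
          h2 v List.mem_cons_self, rfl⟩

theorem nodup_tup {V : List Vx} (hV : V.Nodup) (k : ℕ) : (tup V k).Nodup := by
  induction k with
  | zero => simp [tup]
  | succ k ih =>
    simp only [tup]
    rw [List.nodup_flatMap]
    refine ⟨fun t _ => hV.map (fun a b h => by simpa using h), ?_⟩
    refine ih.imp ?_
    intro a b hab
    simp only [Function.onFun, List.disjoint_left, List.mem_map]
    rintro x ⟨v, _, rfl⟩ ⟨w, _, h⟩
    exact hab (by simpa using (List.cons.inj h).2.symm)

theorem hit_cons (a b : Vx) (s t : List Vx) : hit (a :: s) (b :: t) = (cf a b || hit s t) := by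
  simp [hit]

/-- **The power is multiplicative.** -/
theorem card_indep (K a : ℕ) (V : List Vx)
    (hb : ∀ F : Finset Vx, (∀ u ∈ F, u ∈ V) → (∀ u ∈ F, ∀ v ∈ F, cf u v = false) →
      K * F.card ≤ a) (k : ℕ) :
    ∀ S : Finset (List Vx), (∀ s ∈ S, s ∈ tup V k) → (∀ s ∈ S, ∀ t ∈ S, hit s t = false) →
      K ^ k * S.card ≤ a ^ k := by
  induction k with
  | zero =>
    intro S hS _
    have : S ⊆ {[]} := fun s hs => by simpa [tup] using hS s hs
    simpa using Finset.card_le_card this
  | succ k ih =>
    intro S hS hI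
    have hd : ∀ s ∈ S, ∃ v t, s = v :: t ∧ v ∈ V ∧ t ∈ tup V k := by
      intro s hs
      have := hS s hs
      simp only [tup, List.mem_flatMap, List.mem_map] at this
      obtain ⟨t, ht, v, hv, rfl⟩ := this
      exact ⟨v, t, rfl, hv, ht⟩
    set H : List Vx → Vx := fun s => s.headD default with hH
    set F : Finset Vx := S.image H with hF
    have hFV : ∀ u ∈ F, u ∈ V := by
      intro u hu
      obtain ⟨s, hs, rfl⟩ := Finset.mem_image.1 hu
      obtain ⟨v, t, rfl, hv, _⟩ := hd s hs
      simpa [hH] using hv
    have hFI : ∀ u ∈ F, ∀ v ∈ F, cf u v = false := by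
      intro u hu v hv
      obtain ⟨s, hs, rfl⟩ := Finset.mem_image.1 hu
      obtain ⟨s', hs', rfl⟩ := Finset.mem_image.1 hv
      obtain ⟨v, t, rfl, _, _⟩ := hd s hs
      obtain ⟨v', t', rfl, _, _⟩ := hd s' hs'
      have := hI _ hs _ hs'
      rw [hit_cons] at this
      simpa [hH] using (Bool.or_eq_false_iff.1 this).1
    have hcard : S.card = ∑ u ∈ F, (S.filter fun s => H s = u).card :=
      Finset.card_eq_sum_card_fiberwise fun s hs => Finset.mem_image_of_mem H hs
    have hfib : ∀ u ∈ F, K ^ k * (S.filter fun s => H s = u).card ≤ a ^ k := by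
      intro u _
      have hinj : Set.InjOn List.tail ((S.filter fun s => H s = u : Finset (List Vx)) :
          Set (List Vx)) := by
        intro s hs s' hs' he
        simp only [Finset.coe_filter, Set.mem_ofPred_eq] at hs hs'
        obtain ⟨v, t, rfl, _, _⟩ := hd s hs.1
        obtain ⟨v', t', rfl, _, _⟩ := hd s' hs'.1
        have e1 : v = u := by simpa [hH] using hs.2
        have e2 : v' = u := by simpa [hH] using hs'.2
        simp only [List.tail_cons] at he
        rw [e1, e2, he]
      rw [← Finset.card_image_of_injOn hinj]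
      refine ih _ ?_ ?_
      · intro s0 hs0
        obtain ⟨s, hs, rfl⟩ := Finset.mem_image.1 hs0
        have hs2 := (Finset.mem_filter.1 hs).1
        obtain ⟨v, t, rfl, _, ht⟩ := hd s hs2
        exact ht
      · intro s0 hs0 s0' hs0'
        obtain ⟨s, hs, rfl⟩ := Finset.mem_image.1 hs0
        obtain ⟨s', hs', rfl⟩ := Finset.mem_image.1 hs0'
        have hs2 := (Finset.mem_filter.1 hs).1
        have hs2' := (Finset.mem_filter.1 hs').1
        obtain ⟨v, t, rfl, _, ht⟩ := hd s hs2
        obtain ⟨v', t', rfl, _, ht'⟩ := hd s' hs2'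
        have := hI _ hs2 _ hs2'
        rw [hit_cons] at this
        exact (Bool.or_eq_false_iff.1 this).2
    calc K ^ (k + 1) * S.card = K * ∑ u ∈ F, K ^ k * (S.filter fun s => H s = u).card := by
          rw [hcard, ← Finset.mul_sum]; ring
      _ ≤ K * ∑ _u ∈ F, a ^ k := Nat.mul_le_mul_left _ (Finset.sum_le_sum hfib)
      _ = (K * F.card) * a ^ k := by rw [Finset.sum_const, smul_eq_mul]; ring
      _ ≤ a * a ^ k := Nat.mul_le_mul_right _ (hb F hFV hFI)
      _ = a ^ (k + 1) := by ring

/-- Independent sets of the conflict graph give assignments. -/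
theorem card_le_numSat (φ : List Clause) (F : Finset Vx) (hV : ∀ u ∈ F, u ∈ vs φ)
    (hI : ∀ u ∈ F, ∀ v ∈ F, cf u v = false) : ∃ A : List ℕ, F.card ≤ numSat φ A := by
  classical
  refine ⟨(F.filter fun u => u.2.2 = true).toList.map fun u => u.2.1, ?_⟩
  set A := (F.filter fun u => u.2.2 = true).toList.map fun u => u.2.1 with hA
  have hlit : ∀ u ∈ F, LitTrue A u.2 := by
    intro u hu
    unfold LitTrue
    constructor
    · intro h
      rw [hA, List.mem_map] at h
      obtain ⟨w, hw, he⟩ := h
      rw [Finset.mem_toList, Finset.mem_filter] at hw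
      by_contra hne
      have h0 := hI u hu w hw.1
      have hne2 : u ≠ w := by
        rintro rfl
        exact hne hw.2
      unfold cf at h0
      simp [hne2, he, hw.2, hne] at h0
    · intro h
      rw [hA, List.mem_map]
      exact ⟨u, by rw [Finset.mem_toList, Finset.mem_filter]; exact ⟨hu, h⟩, rfl⟩
  have hinj : Set.InjOn Prod.fst (F : Set Vx) := by
    intro u hu v hv he
    have h0 := hI u hu v hv
    by_contra hne
    unfold cf at h0
    simp [hne, he] at h0
  rw [← Finset.card_image_of_injOn hinj]
  have hsub : F.image Prod.fst ⊆ (Finset.range φ.length).filter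
      (fun i => ClauseSat A (φ.getD i default)) := by
    intro i hi
    obtain ⟨u, hu, rfl⟩ := Finset.mem_image.1 hi
    obtain ⟨c, hc, hl⟩ := mem_vs.1 (hV u hu)
    rw [Finset.mem_filter, Finset.mem_range]
    have hlt : u.1 < φ.length := by
      by_contra hge
      rw [List.getElem?_eq_none (by omega)] at hc
      exact absurd hc (by simp)
    refine ⟨hlt, ?_⟩
    rw [List.getD_eq_getElem?_getD, hc]
    exact ⟨u.2, hl, hlit u hu⟩
  refine (Finset.card_le_card hsub).trans (le_of_eq ?_)
  have e1 : φ = (List.range φ.length).map fun i => φ.getD i default := by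
    apply List.ext_getElem
    · simp
    · intro i h1 h2
      simp [List.getD_eq_getElem?_getD, List.getElem?_eq_getElem h1]
  have e2 : numSat φ A = (List.range φ.length).countP
      (fun i => decide (ClauseSat A (φ.getD i default))) := by
    unfold numSat
    conv_lhs => rw [e1]
    rw [List.countP_map]
    rfl
  rw [e2, List.countP_eq_length_filter, ← List.toFinset_card_of_nodup
    (List.nodup_range.filter _)]
  congr 1
  ext i
  simp

theorem getD_gA (φ : List Clause) (k : ℕ) {u : ℕ} (hu : u < (tup (vs φ) k).length) :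
    (gA φ k).getD u [] = (List.range (tup (vs φ) k).length).filter fun j =>
      adj ((tup (vs φ) k).getD u []) ((tup (vs φ) k).getD j []) := by
  unfold gA
  rw [List.getD_eq_getElem?_getD, List.getElem?_map, List.getElem?_eq_getElem hu,
    List.getD_eq_getElem?_getD (l := tup (vs φ) k), List.getElem?_eq_getElem hu]
  rfl

theorem length_gA (φ : List Clause) (k : ℕ) : (gA φ k).length = (tup (vs φ) k).length := by
  simp [gA]

theorem adj_symm (s t : List Vx) : adj s t = adj t s := by
  unfold adj
  rw [Bool.or_comm (hit s t), decide_eq_decide.2 (eq_comm (a := s) (b := t))]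

theorem gr_gA (φ : List Clause) (k u v : ℕ) : (gr (gA φ k)).Adj u v ↔
    u ≠ v ∧ u < (tup (vs φ) k).length ∧ v < (tup (vs φ) k).length ∧
      adj ((tup (vs φ) k).getD u []) ((tup (vs φ) k).getD v []) = true := by
  show (u ≠ v ∧ u < (gA φ k).length ∧ v < (gA φ k).length ∧
    (v ∈ (gA φ k).getD u [] ∨ u ∈ (gA φ k).getD v [])) ↔ _
  rw [length_gA]
  refine and_congr_right fun _ => and_congr_right fun hu => and_congr_right fun hv => ?_
  rw [getD_gA φ k hu, getD_gA φ k hv]
  simp only [List.mem_filter, List.mem_range, hu, hv, true_and]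
  rw [adj_symm ((tup (vs φ) k).getD v [])]
  simp

/-- Soundness of the reduction. -/
theorem sound (φ : List Clause) (K : ℕ) (h : ∀ A : List ℕ, φ.length ≤
    K * (φ.length - numSat φ A)) (k : ℕ) (S : List ℕ) (hS : Indep (gA φ k) S) :
    (K + 1) ^ k * S.length ≤ (K * φ.length) ^ k := by
  classical
  obtain ⟨h1, h2⟩ := hS
  rw [length_gA] at h1
  set g : ℕ → List Vx := fun u => (tup (vs φ) k).getD u [] with hg
  have hmem : ∀ u ∈ S, g u ∈ tup (vs φ) k := by
    intro u hu
    have := h1 u hu
    rw [hg]
    simp only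
    rw [List.getD_eq_getElem?_getD, List.getElem?_eq_getElem this]
    exact List.getElem_mem _
  have hp : S.Pairwise fun u v => g u ≠ g v ∧ hit (g u) (g v) = false ∧
      hit (g v) (g u) = false := by
    refine List.Pairwise.imp_of_mem ?_ h2
    intro u v hu hv huv
    have h3 : adj (g u) (g v) = false := by
      by_contra hc
      rw [Bool.not_eq_false] at hc
      exact huv.2 ((gr_gA φ k u v).2 ⟨huv.1, h1 u hu, h1 v hv, hc⟩)
    unfold adj at h3
    simpa [not_or] using h3
  have hnd : (S.map g).Nodup := by
    rw [List.Nodup, List.pairwise_map]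
    exact hp.imp fun h => h.1
  have hself : ∀ s : List Vx, hit s s = false := by
    intro s
    induction s with
    | nil => rfl
    | cons a s ih => rw [hit_cons, ih]; simp [cf]
  have key := card_indep (K + 1) (K * φ.length) (vs φ) (by
    intro F hF hI
    obtain ⟨A, hA⟩ := card_le_numSat φ F hF hI
    have h3 := h A
    have h4 : numSat φ A ≤ φ.length := List.countP_le_length
    obtain ⟨d, hd⟩ := Nat.exists_eq_add_of_le h4
    rw [hd, Nat.add_sub_cancel_left] at h3
    rw [hd]
    nlinarith) k (S.map g).toFinset (by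
      intro s hs
      rw [List.mem_toFinset, List.mem_map] at hs
      obtain ⟨u, hu, rfl⟩ := hs
      exact hmem u hu) (by
      intro s hs t ht
      rw [List.mem_toFinset] at hs ht
      by_cases he : s = t
      · rw [he]; exact hself t
      have hpm : (S.map g).Pairwise fun s t => hit s t = false ∧ hit t s = false := by
        rw [List.pairwise_map]
        exact hp.imp fun h => h.2
      have hsy : Std.Symm fun s t : List Vx => hit s t = false ∧ hit t s = false :=
        ⟨fun _ _ h => ⟨h.2, h.1⟩⟩
      exact (List.Pairwise.forall hpm hs ht he).1)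
  rw [List.toFinset_card_of_nodup hnd, List.length_map] at key
  exact key

/-- Completeness of the reduction. -/
theorem complete (φ : List Clause) (A : List ℕ) (h : numSat φ A = φ.length) (k : ℕ) :
    ∃ S : List ℕ, Indep (gA φ k) S ∧ S.length = φ.length ^ k := by
  classical
  have hsat : ∀ c ∈ φ, ClauseSat A c := by
    have := List.countP_eq_length.1 h
    exact fun c hc => by simpa using this c hc
  have hch : ∀ i : ℕ, ∃ l : Lit, i < φ.length → (i, l) ∈ vs φ ∧ LitTrue A l := by
    intro i
    by_cases hi : i < φ.length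
    · obtain ⟨l, hl, ht⟩ := hsat _ (List.getElem_mem hi)
      exact ⟨l, fun _ => ⟨mem_vs.2 ⟨φ[i], List.getElem?_eq_getElem hi, hl⟩, ht⟩⟩
    · exact ⟨(0, true), fun h => absurd h hi⟩
  choose l hl using hch
  set B : List Vx := (List.range φ.length).map fun i => (i, l i) with hB
  have hBnd : B.Nodup := List.nodup_range.map fun a b h => (Prod.mk.inj h).1
  have hBl : B.length = φ.length := by simp [hB]
  have hBV : ∀ v ∈ B, v ∈ vs φ ∧ LitTrue A v.2 := by
    intro v hv
    rw [hB, List.mem_map] at hv
    obtain ⟨i, hi, rfl⟩ := hv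
    exact hl i (List.mem_range.1 hi)
  have hcf : ∀ u ∈ B, ∀ v ∈ B, cf u v = false := by
    intro u hu v hv
    by_cases he : u = v
    · simp [cf, he]
    have hu' := (hBV u hu).2
    have hv' := (hBV v hv).2
    have h1 : u.1 ≠ v.1 := by
      rw [hB, List.mem_map] at hu hv
      obtain ⟨i, _, rfl⟩ := hu
      obtain ⟨j, _, rfl⟩ := hv
      intro h
      simp only at h
      exact he (by rw [h])
    have h2 : u.2.1 = v.2.1 → u.2.2 = v.2.2 := by
      intro h
      unfold LitTrue at hu' hv'
      rw [h, hv'] at hu'
      exact (Bool.eq_iff_iff.2 hu').symm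
    unfold cf
    simp only [h1, decide_false, Bool.false_or, Bool.and_eq_false_imp, decide_eq_true_eq,
      Bool.not_eq_true', decide_eq_false_iff_not, Bool.not_eq_false', he, not_false_eq_true,
      forall_const]
    exact h2
  have hhit : ∀ s t : List Vx, (∀ u ∈ s, u ∈ B) → (∀ u ∈ t, u ∈ B) → hit s t = false := by
    intro s t hs ht
    unfold hit
    rw [List.any_eq_false]
    intro p hp
    have := List.of_mem_zip hp
    rw [hcf p.1 (hs _ this.1) p.2 (ht _ this.2)]
    simp
  have hsub : ∀ t ∈ tup B k, t ∈ tup (vs φ) k := by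
    intro t ht
    rw [mem_tup] at ht ⊢
    exact ⟨ht.1, fun v hv => (hBV v (ht.2 v hv)).1⟩
  have hidx : ∀ t ∈ tup (vs φ) k, (tup (vs φ) k).getD ((tup (vs φ) k).idxOf t) [] = t := by
    intro t ht
    have := List.idxOf_lt_length_of_mem ht
    rw [List.getD_eq_getElem?_getD, List.getElem?_eq_getElem this]
    simp
  refine ⟨(tup B k).map fun t => (tup (vs φ) k).idxOf t, ⟨?_, ?_⟩, ?_⟩
  · intro v hv
    rw [length_gA]
    obtain ⟨t, ht, rfl⟩ := List.mem_map.1 hv
    exact List.idxOf_lt_length_of_mem (hsub t ht)
  · rw [List.pairwise_map]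
    refine List.Pairwise.imp_of_mem ?_ (nodup_tup hBnd k)
    intro s t hs ht hne
    have e1 := hidx s (hsub s hs)
    have e2 := hidx t (hsub t ht)
    refine ⟨fun he => hne (by rw [← e1, he, e2]), fun hadj => ?_⟩
    have h3 := ((gr_gA φ k _ _).1 hadj).2.2.2
    rw [e1, e2] at h3
    unfold adj at h3
    rw [hhit s t (mem_tup.1 hs).2 (mem_tup.1 ht).2, hhit t s (mem_tup.1 ht).2 (mem_tup.1 hs).2] at h3
    simp [hne] at h3
  · rw [List.length_map, length_tup, hBl]

end Pool.Agent.H243R3.MIS
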