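import Pool.Agent.H243R3.MIS.Comb
import Pool.Agent.H243R3.PCP.ApxMain

/-!
# Maximum Independent Set has no constant-factor approximation unless P = NP
-/

set_option autoImplicit false

namespace Pool.Agent.NPC.DP

open Pool.Agent.H243R3.MIS Pool.Agent.H688R2.RInd

open H243R3.TP (Lit Clause lits numSat)

variable {α : Type} [TEnc α]

theorem poly_vs {φ : α → List Clause} (h : Poly φ) : Poly (fun a => vs (φ a)) := by
  unfold vs
  refine Poly.flatMap (F := fun a (p : Clause × ℕ) => (lits p.1).map fun l => (p.2, l))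
    (Poly.zipIdx h) ?_
  have hc : Poly (fun p : α × Clause × ℕ => p.2.1) := Poly.fst (Poly.snd Poly.id)
  have hi : Poly (fun p : α × Clause × ℕ => p.2.2) := Poly.snd (Poly.snd Poly.id)
  exact Poly.cons (Poly.pair hi (Poly.fst hc)) (Poly.cons (Poly.pair hi (Poly.fst (Poly.snd hc)))
    (Poly.cons (Poly.pair hi (Poly.snd (Poly.snd hc))) (Poly.const [])))

theorem poly_tup {V : α → List Vx} (h : Poly V) (k : ℕ) : Poly (fun a => tup (V a) k) := by
  induction k with
  | zero => exact Poly.const _
  | succ k ih =>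
    show Poly (fun a => (tup (V a) k).flatMap fun t => (V a).map fun v => v :: t)
    refine Poly.flatMap (F := fun a t => (V a).map fun v => v :: t) ih ?_
    refine Poly.map (F := fun (p : α × List Vx) v => v :: p.2) (h.comp (Poly.fst Poly.id)) ?_
    exact Poly.cons (Poly.snd Poly.id) (Poly.snd (Poly.fst Poly.id))

theorem poly_cf {a b : α → Vx} (ha : Poly a) (hb : Poly b) : Poly (fun x => cf (a x) (b x)) := by
  unfold cf
  exact Poly.and (Poly.not (Poly.decide_eq ha hb)) (Poly.or (Poly.decide_eq (Poly.fst ha)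
    (Poly.fst hb)) (Poly.and (Poly.decide_eq (Poly.fst (Poly.snd ha)) (Poly.fst (Poly.snd hb)))
    (Poly.not (Poly.decide_eq (Poly.snd (Poly.snd ha)) (Poly.snd (Poly.snd hb))))))

theorem poly_hit {s t : α → List Vx} (hs : Poly s) (ht : Poly t) :
    Poly (fun x => hit (s x) (t x)) := by
  unfold hit
  refine Poly.any (p := fun _ (p : Vx × Vx) => cf p.1 p.2) (Poly.zip hs ht) ?_
  exact poly_cf (Poly.fst (Poly.snd Poly.id)) (Poly.snd (Poly.snd Poly.id))

theorem poly_adj {s t : α → List Vx} (hs : Poly s) (ht : Poly t) :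
    Poly (fun x => adj (s x) (t x)) := by
  unfold adj
  exact Poly.or (Poly.decide_eq hs ht) (Poly.or (poly_hit hs ht) (poly_hit ht hs))

theorem poly_gA {φ : α → List Clause} (h : Poly φ) (k : ℕ) : Poly (fun a => gA (φ a) k) := by
  have hT : Poly (fun a => tup (vs (φ a)) k) := poly_tup (poly_vs h) k
  unfold gA
  refine Poly.map (F := fun a s => (List.range (tup (vs (φ a)) k).length).filter fun j =>
    adj s ((tup (vs (φ a)) k).getD j [])) hT ?_
  refine Poly.filter (p := fun (q : α × List Vx) j =>
    adj q.2 ((tup (vs (φ q.1)) k).getD j [])) ?_ ?_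
  · exact (UPoly.length hT).range.comp (Poly.fst Poly.id)
  · exact poly_adj (Poly.snd (Poly.fst Poly.id)) (Poly.getD (hT.comp (Poly.fst (Poly.fst Poly.id)))
      (Poly.snd Poly.id) (Poly.const []))

theorem exists_pow_gap (K q : ℕ) : ∃ k : ℕ, q * K ^ k < (K + 1) ^ k := by
  have h1 : ((K : ℝ) / (K + 1)) < 1 := by
    rw [div_lt_one (by positivity)]
    linarith
  obtain ⟨k, hk⟩ := exists_pow_lt_of_lt_one (show (0 : ℝ) < 1 / (q + 1) by positivity) h1
  refine ⟨k, ?_⟩
  rw [div_pow, div_lt_div_iff₀ (by positivity) (by positivity), one_mul] at hk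
  have h2 : ((K ^ k * (q + 1) : ℕ) : ℝ) < (((K + 1) ^ k : ℕ) : ℝ) := by push_cast; exact hk
  have h3 := Nat.cast_lt.1 h2
  refine lt_of_le_of_lt ?_ h3
  rw [mul_comm]
  exact Nat.mul_le_mul_left _ (Nat.le_succ q)

/-- The test of the size of the solution found. -/
def tst (q k : ℕ) (p : List Clause × Option (List ℕ)) : Bool :=
  decide (p.1.length ^ k ≤ q * (match p.2 with | none => 0 | some S => S.length))

theorem poly_tst (q k : ℕ) : Poly (tst q k) := by
  unfold tst
  have h1 : Poly (fun p : List Clause × Option (List ℕ) => p.1.length ^ k) := by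
    have := (UPoly.eval (UPoly.length (Poly.fst (Poly.id (α := List Clause × Option (List ℕ)))))
      (Polynomial.X ^ k)).toPoly
    exact this.congr fun p => by simp
  have h2 : Poly (fun p : List Clause × Option (List ℕ) =>
      (match p.2 with | none => 0 | some S => S.length : ℕ)) :=
    (Poly.optCases (o := fun p : List Clause × Option (List ℕ) => p.2) (g := fun _ => 0)
      (h := fun _ S => S.length) (Poly.snd Poly.id) (Poly.const _)
      (Poly.length (Poly.snd Poly.id))).congr fun p => by
        rcases p with ⟨a, _ | S⟩ <;> rfl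
  exact Poly.decide_le h1 (Poly.mul (Poly.const q) h2)

/-- **Maximum Independent Set is NP-hard to approximate within any constant.** -/
theorem mis_hard {c : ℝ} (hc : 0 < c) (h : MISApprox c) {L : Set (List Bool)} (hL : InNP L) :
    InP L := by
  obtain ⟨F, hF, hF2⟩ := h
  obtain ⟨f, hf, hf2⟩ := gap3Sat hL
  obtain ⟨q, hq⟩ := exists_nat_ge (1 / c)
  obtain ⟨k, hk⟩ := exists_pow_gap K0 q
  -- the graph
  have hG0 : PC (fun x : List Bool => x) (bits : List (List ℕ) → List Bool)
      (fun x => gA (f x) k) :=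
    PC.comp (g := fun φ => gA φ k) (f := f) (poly_gA Poly.id k) hf
  have hG : PolyTime (fun x => bits (gA (f x) k)) := by
    obtain ⟨c, p, h⟩ := hG0
    exact PC.toPolyTime ⟨c, p, h⟩
  have hS : PolyTime (fun x => F (bits (gA (f x) k))) := H642R2.TMSim.polyTime_comp hF hG
  have hS1 : PC (fun x : List Bool => x) (bits : List Bool → List Bool)
      (fun x => F (bits (gA (f x) k))) :=
    PC.comp (g := fun x => x) (f := fun x => F (bits (gA (f x) k))) PC.rawIn
      (H642R2.TMSim.polyTime_toPC hS)
  have hS2 : PC (fun x : List Bool => x) (bits : Option (List ℕ) → List Bool)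
      (fun x => unbits (List ℕ) (F (bits (gA (f x) k)))) :=
    PC.comp (g := unbits (List ℕ)) (f := fun x => F (bits (gA (f x) k))) poly_unbits hS1
  have hP : PC (fun x : List Bool => x) (bits : List Clause × Option (List ℕ) → List Bool)
      (fun x => (f x, unbits (List ℕ) (F (bits (gA (f x) k))))) :=
    PC.node (f := fun x => toT (f x)) (g := fun x => toT (unbits (List ℕ)
      (F (bits (gA (f x) k))))) hf hS2
  have hT : PC (fun x : List Bool => x) (bits : Bool → List Bool)
      (fun x => tst q k (f x, unbits (List ℕ) (F (bits (gA (f x) k))))) :=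
    PC.comp (g := tst q k) (f := fun x => (f x, unbits (List ℕ) (F (bits (gA (f x) k)))))
      (poly_tst q k) hP
  have hD : PolyTime (fun x => [tst q k (f x, unbits (List ℕ) (F (bits (gA (f x) k))))]) :=
    PC.toPolyTime (PC.comp (g := fun b => [b])
      (f := fun x => tst q k (f x, unbits (List ℕ) (F (bits (gA (f x) k))))) PC.rawBool hT)
  refine ⟨_, hD, fun x => ?_⟩
  obtain ⟨S, hS3, hS4, hS5⟩ := hF2 (gA (f x) k)
  rw [hS3, unbits_bits]
  obtain ⟨g1, _, g3, g4⟩ := hf2 x
  have hm : 0 < (f x).length := List.length_pos_iff.2 g1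
  have hcast : 1 ≤ (q : ℝ) * c := by
    rw [div_le_iff₀ hc] at hq
    exact hq
  simp only [tst, List.cons.injEq, and_true, decide_eq_true_eq]
  constructor
  · intro hx
    obtain ⟨A, _, _, hA⟩ := g3 hx
    obtain ⟨S', h1, h2⟩ := complete (f x) A hA k
    have h3 := hS5 S' h1
    rw [h2] at h3
    have h4 : (((f x).length ^ k : ℕ) : ℝ) ≤ ((q * S.length : ℕ) : ℝ) := by
      push_cast at h3 ⊢
      have h5 : (0 : ℝ) ≤ ((f x).length : ℝ) ^ k := by positivity
      have h6 : (q : ℝ) * (c * ((f x).length : ℝ) ^ k) ≤ q * S.length :=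
        mul_le_mul_of_nonneg_left h3 (by positivity)
      nlinarith
    exact_mod_cast h4
  · intro hle
    by_contra hx
    have h1 := sound (f x) K0 (g4 hx) k S hS4
    have h2 : 0 < (f x).length ^ k := by positivity
    have h3 : (K0 + 1) ^ k * (f x).length ^ k ≤ q * K0 ^ k * (f x).length ^ k := by
      calc (K0 + 1) ^ k * (f x).length ^ k ≤ (K0 + 1) ^ k * (q * S.length) :=
            Nat.mul_le_mul_left _ hle
        _ = q * ((K0 + 1) ^ k * S.length) := by ring
        _ ≤ q * (K0 * (f x).length) ^ k := Nat.mul_le_mul_left _ h1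
        _ = q * K0 ^ k * (f x).length ^ k := by rw [mul_pow]; ring
    have h4 := Nat.le_of_mul_le_mul_right h3 h2
    omega

end Pool.Agent.NPC.DP
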